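import Pool.Graph.R_pool_sql_team_seeded_63374d34.N879.PZ.Stm
import Pool.Graph.R_pool_sql_team_seeded_63374d34.N879.PZ.Sml
import Pool.Graph.R_pool_sql_team_seeded_63374d34.N879.PZ.Ctg

set_option autoImplicit false

/-!
Project PZ (library run 63374d34, N879/PZ), the missing package LED: the leading term of the model.
-/

namespace Pool.Agent.H681.PZ

open Complex Filter Topology MeasureTheory Set
open Pool.Agent.N879.PZ
open Pool.Agent.Y969.GP (ff ht lam FR mB)
open Pool.Agent.Y969.SM (ff_cont)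
open Pool.Agent.N879.PZ.Smlaux

noncomputable section

/-- mean values over the shifts, different factors -/
theorem common2 (h1 : S_FUB) {n : ℕ} {a b U : ℝ} {M : Fin n → ℝ} {D : Set ℝ} {g : Fin n → ℝ → ℂ} (hab : a ≤ b)
    (hU : 0 < U) (hD : MeasurableSet D) (hDs : D ⊆ Icc a b) (hg : ∀ j, Continuous (g j))
    (hM : ∀ j, ∀ t ∈ D, ∫ c in (0:ℝ)..U, ‖g j (t + c)‖ ≤ M j) :
    ∫ c, ‖∫ t in D, (ff t : ℂ) * ∏ j : Fin n, g j (t + c j)‖ ∂(mB n 0 U) ≤
      (∫ t in D, ff t) * ∏ j, M j := by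
  refine (h1 n a b U D (fun t => (ff t : ℂ)) g hab hU hD hDs (ff_Wb a b) hg).trans ?_
  simp only [nff]
  rw [← integral_mul_const]
  refine setIntegral_mono_on ?_ ?_ hD fun t ht => ?_
  · have h2 : Continuous fun t : ℝ => ff t * ∏ j, ∫ c in (0:ℝ)..U, ‖g j (t + c)‖ :=
      ff_cont.mul (continuous_finsetProd _ fun j _ => wcont (hg j) U)
    exact (h2.integrableOn_Icc (a := a) (b := b)).mono_set hDs
  · have h2 : Continuous fun t : ℝ => ff t * ∏ j, M j := ff_cont.mul continuous_const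
    exact (h2.integrableOn_Icc (a := a) (b := b)).mono_set hDs
  · refine mul_le_mul_of_nonneg_left ?_ (ff_nonneg t)
    refine Finset.prod_le_prod (fun j _ => ?_) fun j _ => hM j t ht
    exact intervalIntegral.integral_nonneg hU.le fun c _ => norm_nonneg _

/-- the factors of the `i`-th difference -/
def hh {n : ℕ} (i : Fin n) (f g : ℝ → ℂ) (j : Fin n) : ℝ → ℂ :=
  if j < i then g else if j = i then fun u => f u - g u else f

lemma hh_cont {n : ℕ} (i : Fin n) {f g : ℝ → ℂ} (hf : Continuous f) (hg : Continuous g) (j : Fin n) :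
    Continuous (hh i f g j) := by
  unfold hh
  split_ifs
  · exact hg
  · exact hf.sub hg
  · exact hf

lemma split_prod {n : ℕ} (i : Fin n) (A C : Fin n → ℂ) (B : ℂ) :
    ∏ j, (if j < i then A j else if j = i then B else C j) =
      B * (∏ j ∈ Finset.univ.filter (fun j => j < i), A j) * ∏ j ∈ Finset.univ.filter (fun j => i < j), C j := by
  rw [Finset.prod_ite]
  have e : (Finset.univ.filter fun j : Fin n => ¬ j < i) =
      insert i (Finset.univ.filter fun j => i < j) := by
    ext j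
    simp only [Finset.mem_filter, Finset.mem_univ, true_and, Finset.mem_insert, not_lt]
    rw [le_iff_eq_or_lt]
    exact or_congr_left eq_comm
  rw [e, Finset.prod_insert (by simp)]
  simp only [if_true]
  have e2 : ∏ j ∈ Finset.univ.filter (fun j => i < j), (if j = i then B else C j) =
      ∏ j ∈ Finset.univ.filter (fun j => i < j), C j := by
    refine Finset.prod_congr rfl fun j hj => ?_
    rw [if_neg]
    rintro rfl
    simp at hj
  rw [e2]
  ring

lemma telescope {n : ℕ} (f g : ℝ → ℂ) (x : Fin n → ℝ) :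
    ∏ j, f (x j) - ∏ j, g (x j) = ∑ i, ∏ j, hh i f g j (x j) := by
  have h := Finset.prod_sub_ordered (Finset.univ : Finset (Fin n)) (fun j => f (x j)) (fun j => f (x j) - g (x j))
  simp only [sub_sub_cancel] at h
  rw [h, sub_sub_cancel]
  refine Finset.sum_congr rfl fun i _ => ?_
  rw [← split_prod]
  refine Finset.prod_congr rfl fun j _ => ?_
  unfold hh
  split_ifs with h1 h2
  · rfl
  · rw [h2]
  · rfl

lemma prod_ite_single {n : ℕ} (i : Fin n) (x L : ℝ) :
    ∏ j : Fin n, (if j = i then x else L) = x * L ^ (n - 1) := by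
  rw [← Finset.mul_prod_erase _ _ (Finset.mem_univ i), if_pos rfl]
  congr 1
  rw [Finset.prod_congr rfl (g := fun _ => L) (fun j hj => if_neg (Finset.ne_of_mem_erase hj)),
    Finset.prod_const, Finset.card_erase_of_mem (Finset.mem_univ i), Finset.card_univ, Fintype.card_fin]

lemma mean_ff (hTW : S_TW) : ∃ C : ℝ, 0 < C ∧ ∀ (T U a : ℝ) (N : ℕ), Par T U a N →
    ∫ t in Icc a T, ff t ≤ C * T * Real.log T := by
  obtain ⟨C, hC, h⟩ := hTW
  refine ⟨1 + 3 * C, by positivity, fun T U a N hP => ?_⟩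
  obtain ⟨hT, -, -, ha, haT, -⟩ := hP
  have hL := log_one hT
  have hT0 : 0 < T := by linarith
  have ht1 : ht (1, 1) = 1 := by unfold Pool.Agent.Y969.GP.ht; norm_num
  have h1 := h T a (1, 1) hT ha haT le_rfl le_rfl (Nat.coprime_one_left 1)
    (by rw [ht1]; exact Real.one_le_rpow (by linarith) (by norm_num))
  have he : ∀ t : ℝ, ee t (1, 1) = 1 := by
    intro t
    unfold ee Pool.Agent.Y969.GP.lam
    simp
  simp only [he, mul_one, ht1, Real.sqrt_one, inv_one, Real.log_one, add_zero] at h1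
  have h2 : ‖∫ t in a..T, (ff t : ℂ)‖ ≤ T * Real.log T + (C * T * (1 + a / T * Real.log T) + C * T ^ (15 / 16 : ℝ)) := by
    have h3 : (∫ t in a..T, (ff t : ℂ)) = ((∫ t in a..T, (ff t : ℂ)) - ((T * Real.log T : ℝ) : ℂ)) +
        ((T * Real.log T : ℝ) : ℂ) := by ring
    rw [h3]
    refine (norm_add_le _ _).trans ?_
    have h4 : ‖((T * Real.log T : ℝ) : ℂ)‖ = T * Real.log T := by
      rw [Complex.norm_real, Real.norm_of_nonneg (by positivity)]
    rw [h4]
    linarith
  have h5 : ‖∫ t in a..T, (ff t : ℂ)‖ = ∫ t in Icc a T, ff t := by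
    rw [intervalIntegral.integral_ofReal, Complex.norm_real, intervalIntegral.integral_of_le haT,
      integral_Icc_eq_integral_Ioc, Real.norm_of_nonneg]
    exact integral_nonneg fun t => ff_nonneg t
  rw [← h5]
  refine h2.trans ?_
  have h6 : T ^ (15 / 16 : ℝ) ≤ T := by
    calc T ^ (15 / 16 : ℝ) ≤ T ^ (1 : ℝ) := Real.rpow_le_rpow_of_exponent_le (by linarith) (by norm_num)
      _ = T := Real.rpow_one T
  have h7 : a / T * Real.log T ≤ 1 * Real.log T := by
    have : a / T ≤ 1 := by rw [div_le_one hT0]; exact haT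
    gcongr
  have h8 : C * T * (1 + a / T * Real.log T) ≤ C * T * (2 * Real.log T) := by
    gcongr
    linarith
  have h9 : C * T ^ (15 / 16 : ℝ) ≤ C * T * Real.log T := by
    calc C * T ^ (15 / 16 : ℝ) ≤ C * T := by gcongr
      _ = C * T * 1 := (mul_one _).symm
      _ ≤ C * T * Real.log T := by gcongr
  calc T * Real.log T + (C * T * (1 + a / T * Real.log T) + C * T ^ (15 / 16 : ℝ))
      ≤ T * Real.log T + (C * T * (2 * Real.log T) + C * T * Real.log T) := by linarith
    _ = (1 + 3 * C) * T * Real.log T := by ring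

lemma P1_cont (N : ℕ) : Continuous (P1 N) := by
  unfold P1 ee
  refine continuous_finsetSum _ fun p _ => ?_
  fun_prop

/-- LED -/
theorem t_LED (hFUB : S_FUB) (hCTG : S_CTG) (hWIN : S_WIN) (hTW : S_TW) : S_LED := by
  obtain ⟨C1, hC1, hff⟩ := mean_ff hTW
  obtain ⟨C2, hC2, hwin⟩ := hWIN
  intro n
  refine ⟨(n + 1) * C1 * (√C2) ^ n, by positivity, fun T U a N hP => ?_⟩
  have hfP := hff T U a N hP
  have hWN := hwin T U a N hP
  obtain ⟨hT, hU, hUT, ha, haT, hN1, hNT, -⟩ := hP
  have ha1 := one_le_a hT ha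
  have hL := log_one hT
  have hU0 : 0 < U := by linarith
  have hT0 : 0 < T := by linarith
  have hℓ0 : 0 ≤ Real.log N := Real.log_natCast_nonneg N
  have hlam0 : 0 ≤ Real.log (T / a) := by
    refine Real.log_nonneg ?_
    rw [le_div_iff₀ (by linarith), one_mul]
    exact haT
  set L := Real.log T with hLdef
  set ℓ := 1 + Real.log N with hℓ
  set x := 1 + Real.log (T / a) with hx
  have hℓ1 : 1 ≤ ℓ := by linarith
  have hx1 : 1 ≤ x := by linarith
  have hℓ2 : ℓ ≤ ℓ ^ 2 := by nlinarith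
  set f : ℝ → ℂ := DN N with hf
  set g : ℝ → ℂ := fun u => (L : ℂ) * P1 N u with hg
  have hfc : Continuous f := DN_cont N
  have hgc : Continuous g := continuous_const.mul (P1_cont N)
  have hDm : MeasurableSet (Icc a T) := measurableSet_Icc
  have hsC : (√C2) ^ 2 = C2 := Real.sq_sqrt hC2.le
  -- the windows
  have hMi : ∀ i j : Fin n, ∀ t ∈ Icc a T, ∫ c in (0:ℝ)..U, ‖hh i f g j (t + c)‖ ≤
      U * (√C2 * ℓ ^ 2 * (if j = i then x else L)) := by
    intro i j t ht
    obtain ⟨w1, w2, w3⟩ := hWN t ht.1 ht.2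
    have hcc : Continuous (hh i f g j) := hh_cont i hfc hgc j
    have hif : 0 ≤ (if j = i then x else L) := by split_ifs <;> linarith
    refine cs_int hU0.le (f := fun c => ‖hh i f g j (t + c)‖) ((hcc.comp (by fun_prop)).norm) (by positivity) ?_
    have hB : U * (√C2 * ℓ ^ 2 * (if j = i then x else L)) ^ 2 = C2 * U * ℓ ^ 4 * (if j = i then x else L) ^ 2 := by
      rw [mul_pow, mul_pow, hsC]
      ring
    rw [hB]
    unfold hh
    by_cases h1 : j < i
    · simp only [if_pos h1, if_neg (ne_of_lt h1)]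
      have e : ∀ c : ℝ, ‖g (t + c)‖ ^ 2 = L ^ 2 * ‖P1 N (t + c)‖ ^ 2 := by
        intro c
        rw [hg]
        simp only
        rw [norm_mul, Complex.norm_real, Real.norm_of_nonneg (by linarith), mul_pow]
      simp only [e]
      rw [intervalIntegral.integral_const_mul]
      have h5 : ℓ ^ 2 ≤ ℓ ^ 4 := pow_le_pow_right₀ hℓ1 (by norm_num)
      calc L ^ 2 * ∫ c in (0:ℝ)..U, ‖P1 N (t + c)‖ ^ 2 ≤ L ^ 2 * (C2 * U * ℓ ^ 2) := by gcongr
        _ ≤ L ^ 2 * (C2 * U * ℓ ^ 4) := by gcongr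
        _ = C2 * U * ℓ ^ 4 * L ^ 2 := by ring
    · by_cases h2 : j = i
      · simp only [if_neg h1, if_pos h2]
        exact w3
      · simp only [if_neg h1, if_neg h2]
        exact w2
  -- each difference
  have hterm : ∀ i : Fin n, ∫ c, ‖∫ t in Icc a T, (ff t : ℂ) * ∏ j : Fin n, hh i f g j (t + c j)‖ ∂(mB n 0 U) ≤
      C1 * (√C2) ^ n * (ℓ ^ (2 * n) * x * L ^ n * T * U ^ n) := by
    intro i
    have h1 := common2 hFUB (n := n) (a := a) (b := T) (U := U)
      (M := fun j => U * (√C2 * ℓ ^ 2 * (if j = i then x else L))) (D := Icc a T) (g := hh i f g) haT hU0 hDm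
      subset_rfl (fun j => hh_cont i hfc hgc j) (fun j t ht => hMi i j t ht)
    refine h1.trans ?_
    have hn : 1 ≤ n := by
      have := i.2
      omega
    have e : ∏ j : Fin n, (U * (√C2 * ℓ ^ 2 * (if j = i then x else L))) =
        U ^ n * ((√C2) ^ n * ℓ ^ (2 * n)) * (x * L ^ (n - 1)) := by
      simp only [← mul_assoc]
      rw [Finset.prod_mul_distrib, prod_ite_single, Finset.prod_const, Finset.card_univ, Fintype.card_fin,
        mul_pow, mul_pow, ← pow_mul]
      ring
    rw [e]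
    have h0 : 0 ≤ U ^ n * ((√C2) ^ n * ℓ ^ (2 * n)) * (x * L ^ (n - 1)) := by positivity
    calc (∫ t in Icc a T, ff t) * (U ^ n * ((√C2) ^ n * ℓ ^ (2 * n)) * (x * L ^ (n - 1)))
        ≤ (C1 * T * L) * (U ^ n * ((√C2) ^ n * ℓ ^ (2 * n)) * (x * L ^ (n - 1))) := by gcongr
      _ = C1 * (√C2) ^ n * (ℓ ^ (2 * n) * x * (L ^ (n - 1) * L) * T * U ^ n) := by ring
      _ = C1 * (√C2) ^ n * (ℓ ^ (2 * n) * x * L ^ n * T * U ^ n) := by
          rw [← pow_succ, Nat.sub_add_cancel hn]
  -- the sum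
  have hcont : ∀ i : Fin n, Continuous fun c : Fin n → ℝ =>
      ∫ t in Icc a T, (ff t : ℂ) * ∏ j : Fin n, hh i f g j (t + c j) := fun i =>
    hCTG n a T (Icc a T) (fun t => (ff t : ℂ)) (hh i f g) haT hDm subset_rfl (ff_Wb a T) (fun j => hh_cont i hfc hgc j)
  have hcomp : IsCompact (Set.univ.pi fun _ : Fin n => Icc (0 : ℝ) U) := isCompact_univ_pi fun _ => isCompact_Icc
  have hint : ∀ i : Fin n, Integrable (fun c : Fin n → ℝ =>
      ‖∫ t in Icc a T, (ff t : ℂ) * ∏ j : Fin n, hh i f g j (t + c j)‖) (mB n 0 U) := by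
    intro i
    rw [Ctgaux.mB_eq]
    exact (hcont i).norm.continuousOn.integrableOn_compact hcomp
  have hpt : ∀ c : Fin n → ℝ, ‖∫ t in Icc a T, (ff t : ℂ) * (∏ j : Fin n, DN N (t + c j) -
      ∏ j : Fin n, ((L : ℂ) * P1 N (t + c j)))‖ ≤
      ∑ i, ‖∫ t in Icc a T, (ff t : ℂ) * ∏ j : Fin n, hh i f g j (t + c j)‖ := by
    intro c
    have e : (∫ t in Icc a T, (ff t : ℂ) * (∏ j : Fin n, DN N (t + c j) -
        ∏ j : Fin n, ((L : ℂ) * P1 N (t + c j)))) =
        ∑ i, ∫ t in Icc a T, (ff t : ℂ) * ∏ j : Fin n, hh i f g j (t + c j) := by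
      rw [← integral_finsetSum]
      · refine integral_congr_ae (Eventually.of_forall fun t => ?_)
        simp only
        rw [← Finset.mul_sum, ← telescope f g fun j => t + c j]
      · intro i _
        have h3 : Continuous fun t : ℝ => (ff t : ℂ) * ∏ j : Fin n, hh i f g j (t + c j) :=
          (Complex.continuous_ofReal.comp ff_cont).mul
            (continuous_finsetProd _ fun j _ => (hh_cont i hfc hgc j).comp (by fun_prop))
        exact h3.integrableOn_Icc
    rw [e]
    exact norm_sum_le _ _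
  have hsum : ∫ c, ‖∫ t in Icc a T, (ff t : ℂ) * (∏ j : Fin n, DN N (t + c j) -
      ∏ j : Fin n, ((L : ℂ) * P1 N (t + c j)))‖ ∂(mB n 0 U) ≤
      ∑ i : Fin n, ∫ c, ‖∫ t in Icc a T, (ff t : ℂ) * ∏ j : Fin n, hh i f g j (t + c j)‖ ∂(mB n 0 U) := by
    rw [← integral_finsetSum _ fun i _ => hint i]
    exact integral_mono_of_nonneg (Eventually.of_forall fun c => norm_nonneg _)
      (integrable_finsetSum _ fun i _ => hint i) (Eventually.of_forall hpt)
  refine hsum.trans ((Finset.sum_le_sum fun i _ => hterm i).trans ?_)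
  rw [Finset.sum_const, Finset.card_univ, Fintype.card_fin, nsmul_eq_mul]
  have h0 : 0 ≤ C1 * (√C2) ^ n * (ℓ ^ (2 * n) * x * L ^ n * T * U ^ n) := by positivity
  calc (n : ℝ) * (C1 * (√C2) ^ n * (ℓ ^ (2 * n) * x * L ^ n * T * U ^ n))
      ≤ (n + 1) * (C1 * (√C2) ^ n * (ℓ ^ (2 * n) * x * L ^ n * T * U ^ n)) := by
        gcongr
        linarith
    _ = (n + 1) * C1 * (√C2) ^ n * ℓ ^ (2 * n) * x * L ^ n * T * U ^ n := by ring

end

end Pool.Agent.H681.PZ
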