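import Pool.Agent.H681.PZ.Led
import Pool.Graph.R_pool_sql_team_seeded_63374d34.N879.PZ.Asm4
import Pool.Graph.R_pool_sql_team_seeded_63374d34.N879.PZ.Afx
import Pool.Graph.R_pool_sql_team_seeded_63374d34.N879.PZ.Crd
import Pool.Graph.R_pool_sql_team_seeded_63374d34.N879.PZ.Lc
import Pool.Graph.R_pool_sql_team_seeded_63374d34.N879.PZ.Lt
import Pool.Graph.R_pool_sql_team_seeded_63374d34.N879.PZ.Kh
import Pool.Graph.R_pool_sql_team_seeded_63374d34.N879.PZ.Kl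
import Pool.Graph.R_pool_sql_team_seeded_63374d34.N879.PZ.Ker
import Pool.Graph.R_pool_sql_team_seeded_63374d34.N879.PZ.Telc
import Pool.Graph.R_pool_sql_team_seeded_63374d34.N879.PZ.M4l
import Pool.Graph.R_pool_sql_team_seeded_63374d34.N879.PZ.Win
import Pool.Graph.R_pool_sql_team_seeded_63374d34.N879.PZ.Gcm
import Pool.Graph.R_pool_sql_team_seeded_63374d34.N879.PZ.Tw
import Pool.Graph.R_pool_sql_team_seeded_63374d34.N879.PZ.Msq
import Pool.Graph.R_pool_sql_team_seeded_63374d34.N879.PZ.Loc1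
import Pool.Graph.R_pool_sql_team_seeded_63374d34.N879.PZ.Eut1
import Pool.Graph.R_pool_sql_team_seeded_63374d34.N879.PZ.Eul1
import Pool.Graph.R_pool_sql_team_seeded_63374d34.N879.PZ.Lb1
import Pool.Graph.R_pool_sql_team_seeded_63374d34.N879.PZ.Aa1
import Pool.Graph.R_pool_sql_team_seeded_63374d34.N879.PZ.Ze1

set_option autoImplicit false

/-!
Project PZ (library run 63374d34, N879/PZ, by helper879 of that run): all packages put together.
-/

namespace Pool.Agent.H681.PZ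

open Pool.Agent.N879.PZ

theorem hM4L : S_M4L := t_M4L t_AFX t_CRD t_LT

theorem hTW : S_TW := t_TW t_AFX t_CRD

theorem hWIN : S_WIN := t_WIN t_LC

theorem hGCM : S_GCM := t_GCM hM4L

theorem hMEAN : S_MEAN2 :=
  t_MEAN2 (t_KER t_AFX (t_KH t_CRD t_LC t_LT) t_KL) t_TELC t_CTG hM4L hWIN hGCM (t_SML t_FUB hM4L)
    (t_GCD t_FUB hM4L hWIN hGCM) (t_LED t_FUB t_CTG hWIN hTW) (t_MSQ hTW)

theorem hMAIN : S_MAIN2 :=
  t_MAIN2 t_CTG hMEAN (t_EUL1 t_LOC1 (t_EUT1 t_LSM1)) (t_LB1 t_LOC1) (t_ZE1 (t_AA1 t_LOC1))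

end Pool.Agent.H681.PZ
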